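import Pool.Agent.helper55.RI.SpecG

/-!
# Project rg (MP_2bd605_lc), module G7: the theorem of Berman and Hartmanis for cylinders
-/

set_option autoImplicit false

namespace Pool.Agent.RI

open Pool.Agent.helper62 Prog Function Pool.Agent.helper81.PL

theorem G7_pow (k : ℕ) : PT (fun n : ℕ => (4 * n + 1) ^ k) := by
  induction k with
  | zero => simpa using PT.const (α := ℕ) (1 : ℕ)
  | succ k ih =>
    have h : (fun n : ℕ => (4 * n + 1) ^ (k + 1)) = fun n : ℕ => (4 * n + 1) ^ k * (4 * n + 1) := by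
      funext n; rw [pow_succ]
    rw [h]
    have h2 : PT (fun n : ℕ => 4 * n + 1) := by fun_prop
    exact pt_mul.comp (ih.pair h2)

theorem G7_poly (c : Polynomial ℕ) : PT (fun n : ℕ => c.eval (4 * n + 1)) := by
  induction c using Polynomial.induction_on' with
  | add p q hp hq =>
    simp only [Polynomial.eval_add]
    exact pt_add.comp (hp.pair hq)
  | monomial k a =>
    simp only [Polynomial.eval_monomial]
    exact pt_mul.comp ((PT.const a).pair (G7_pow k))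

theorem G7_LI {A B : Set W} (h1 : LR A B) (h2 : LR B A) : LI A B := by
  obtain ⟨e1, m1, he1, hm1, hi1, hl1, hA⟩ := h1
  obtain ⟨e2, m2, he2, hm2, hi2, hl2, hB⟩ := h2
  obtain ⟨b1, b2, b3⟩ := B1 A B e1 m1 e2 m2 hi1 hi2 hl1 hl2 hA hB
  obtain ⟨b4, b5⟩ := B2 e1 m1 e2 m2 he1 hm1 he2 hm2 hl1 hl2
  exact ⟨bhh e1 m1 e2 m2, bhg e1 m1 e2 m2, b4, b5, b1, b2, b3⟩

theorem G7_pad (hG1 : G1_stmt) (A : Set W)
    (h : ∃ e m : W → W, PT e ∧ PT m ∧ (∀ x, m (e x) = x) ∧ ∀ z, z ∈ cyl A ↔ e z ∈ A) :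
    LR (cyl A) A := by
  obtain ⟨e, m, he, hm, hme, hA⟩ := h
  obtain ⟨g1, g2, g3, g4, g5, g6, g7⟩ := hG1
  obtain ⟨p1, p2, p3, strip, p4, p5⟩ := K3
  obtain ⟨c, hc⟩ := hm.size
  have hJ := G7_poly c
  have hin : PT (fun x : W => pr (fs x) (pre (c.eval (4 * x.length + 1)) x)) := by
    have h1 : PT (fun x : W => c.eval (4 * x.length + 1)) := hJ.comp pt_length
    have h2 : PT (fun x : W => pre (c.eval (4 * x.length + 1)) x) := p1.comp (h1.pair PT.id)
    exact g3.comp (g1.pair h2)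
  refine ⟨fun x => e (pr (fs x) (pre (c.eval (4 * x.length + 1)) x)),
    fun v => strip (sn (m v)), he.comp hin, p4.comp (g2.comp hm), ?_, ?_, ?_⟩
  · intro x
    show strip (sn (m (e _))) = x
    rw [hme, g5, p5]
  · intro x
    by_contra hlt
    have hle : (e (pr (fs x) (pre (c.eval (4 * x.length + 1)) x))).length ≤ x.length :=
      not_lt.mp hlt
    have h1 := hc (e (pr (fs x) (pre (c.eval (4 * x.length + 1)) x)))
    simp only [hme] at h1
    have h2 := length_le_sz (pr (fs x) (pre (c.eval (4 * x.length + 1)) x))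
    rw [g7, p3] at h2
    have h3 : sz (e (pr (fs x) (pre (c.eval (4 * x.length + 1)) x))) ≤ x.length * (3 + 1) + 1 :=
      sz_list_le hle (fun b _ => sz_bool_le b)
    have h4 := Pool.Agent.H54.PT.pe_mono c h3
    have h5 : x.length * (3 + 1) + 1 = 4 * x.length + 1 := by ring
    rw [h5] at h4
    omega
  · intro x
    rw [← hA]
    change fs x ∈ A ↔ fs (pr (fs x) _) ∈ A
    rw [g4]

theorem G7_diag (hG1 : G1_stmt) (A : Set W) : LR A (cyl A) := by
  obtain ⟨g1, g2, g3, g4, g5, g6, g7⟩ := hG1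
  refine ⟨fun x => pr x x, sn, g3.comp (PT.id.pair PT.id), g2, fun x => g5 x x, ?_, ?_⟩
  · intro x
    show x.length < (pr x x).length
    rw [g7]
    omega
  · intro x
    change x ∈ A ↔ fs (pr x x) ∈ A
    rw [g4]

theorem G7_red (hG1 : G1_stmt) (A B : Set W) (h : Red A B) : LR (cyl A) (cyl B) := by
  obtain ⟨g1, g2, g3, g4, g5, g6, g7⟩ := hG1
  obtain ⟨f, hf, hAB⟩ := h
  have hf' : PT f := (uF1.1 f).1 hf
  refine ⟨fun w => pr (f (fs w)) w, sn, g3.comp ((hf'.comp g1).pair PT.id), g2,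
    fun x => g5 _ x, ?_, ?_⟩
  · intro x
    show x.length < (pr (f (fs x)) x).length
    rw [g7]
    omega
  · intro x
    change fs x ∈ A ↔ fs (pr (f (fs x)) x) ∈ B
    rw [g4]
    exact hAB (fs x)

theorem G7 (hG1 : G1_stmt) : G7_stmt := by
  refine ⟨fun A h => G7_LI (G7_pad hG1 A h) (G7_diag hG1 A),
    fun A B h1 h2 => G7_LI (G7_red hG1 A B h1) (G7_red hG1 B A h2), ?_, ?_, ?_⟩
  · rintro A B C ⟨h, g, hh, hg, h1, h2, h3⟩ ⟨h', g', hh', hg', h1', h2', h3'⟩
    refine ⟨fun x => h' (h x), fun x => g (g' x), hh'.comp hh, hg.comp hg', ?_, ?_, ?_⟩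
    · intro x
      show g (g' (h' (h x))) = x
      rw [h1', h1]
    · intro x
      show h' (h (g (g' x))) = x
      rw [h2, h2']
    · intro x
      exact (h3 x).trans (h3' (h x))
  · rintro A B ⟨h, g, hh, hg, h1, h2, h3⟩
    refine ⟨g, h, hg, hh, h2, h1, fun x => ?_⟩
    rw [h3 (g x), h2]
  · intro A B
    constructor
    · rintro ⟨h, g, hh, hg, h1⟩
      exact ⟨h, g, (uF1.1 h).2 hh, (uF1.1 g).2 hg, h1⟩
    · rintro ⟨h, g, hh, hg, h1⟩
      exact ⟨h, g, (uF1.1 h).1 hh, (uF1.1 g).1 hg, h1⟩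

end Pool.Agent.RI
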